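import Pool.Agent.Q74.BT.Stm4

/-!
# Project BT (helper74), part 4: job Web, the flow of a block
-/

set_option autoImplicit false

namespace Pool.Agent.Q234.BT

open Finset
open Pool.Agent.Q158.Pair (T)
open Pool.Agent.Q74.AR (oc oc_per oc_le)
open Pool.Agent.Q74.KP (EE Pe Lv yy EE_mono EE_add EE_sub EE_mul EE_const EE_abs EE_abs_le EE_bd EE_nonneg oc_add count_bd)
open Pool.Agent.Q74.BL (nx EE_split T_add)
open Pool.Agent.Q74.BT
open Pool.Agent.Q74.SF (CG pat Off)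
open Pool.Agent.Q14.BT (off_block ev)
open Pool.Agent.Q153.BT (rr_bounds)
open Pool.Agent.H395R2.G3 (rr FF rate)

/-! ### bounds -/

def Bd (l : List Ob) : Prop := ∀ e ∈ l, (∀ x, |e.2.1 x| ≤ 1) ∧ (∀ x, |e.2.2 x| ≤ 1)

theorem Adm_Bd {δ Λ : ℝ} {t : ℕ} {l : List Ob} (h : Adm δ Λ t l) : Bd l := fun e he => ⟨(h e he).2.1, (h e he).2.2.1⟩

theorem Bd_tail {e : Ob} {l : List Ob} (h : Bd (e :: l)) : Bd l := fun e' he' => h e' (List.mem_cons_of_mem _ he')

theorem Wt_abs {φ : ℕ → ℝ} {h : ℤ → ℝ} (h1 : ∀ x, |φ x| ≤ 1) (h2 : ∀ x, |h x| ≤ 1) (A : Finset ℤ) : |Wt φ h A| ≤ 1 := by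
  unfold Wt
  rw [abs_mul, Finset.abs_prod]
  have h3 : ∏ x ∈ A, |h x| ≤ 1 := Finset.prod_le_one (fun x _ => abs_nonneg _) (fun x _ => h2 x)
  have h4 : 0 ≤ ∏ x ∈ A, |h x| := Finset.prod_nonneg (fun x _ => abs_nonneg _)
  calc |φ A.card| * ∏ x ∈ A, |h x| ≤ 1 * 1 := mul_le_mul (h1 _) h3 h4 (by norm_num)
    _ = 1 := by norm_num

theorem cF_abs {F : Finset ℤ → ℝ} (h : ∀ A, |F A| ≤ 1) (r : ℕ) : ∀ A, |cF F r A| ≤ 1 := by
  induction r with
  | zero => intro A; exact h A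
  | succ r ih =>
    intro A
    simp only [cF]
    rw [abs_div, abs_of_pos (by positivity : (0 : ℝ) < 2 ^ A.card), div_le_one (by positivity)]
    refine (abs_sum_le_sum_abs _ _).trans ((sum_le_sum fun B _ => ih _).trans ?_)
    rw [sum_const, card_powerset, nsmul_eq_mul, mul_one]
    push_cast
    exact le_rfl

theorem mul_abs_le {x y : ℝ} (hx : |x| ≤ 1) (hy : |y| ≤ 1) : |x * y| ≤ 1 := by
  rw [abs_mul]
  calc |x| * |y| ≤ 1 * 1 := mul_le_mul hx hy (abs_nonneg _) (by norm_num)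
    _ = 1 := by norm_num

theorem MW_abs : ∀ {l : List Ob}, Bd l → ∀ A, |MW l A| ≤ 1
  | [], _, A => by simp [MW]
  | e :: l, h, A => by
    simp only [MW]
    apply cF_abs
    intro B
    exact mul_abs_le (Wt_abs (h e (by simp)).1 (h e (by simp)).2 B) (MW_abs (Bd_tail h) B)

theorem PW_abs (S : ℕ → Finset ℤ) : ∀ {l : List Ob}, Bd l → ∀ u, |PW S u l| ≤ 1
  | [], _, u => by simp [PW]
  | e :: l, h, u => by
    simp only [PW]
    exact mul_abs_le (Wt_abs (h e (by simp)).1 (h e (by simp)).2 _) (PW_abs S (Bd_tail h) _)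

/-! ### paths -/

theorem PW_shift (S S' : ℕ → Finset ℤ) (c : ℕ) (h : ∀ s, S (c + s) = S' s) : ∀ (l : List Ob) (u : ℕ),
    PW S' u l = PW S (c + u) l
  | [], u => rfl
  | e :: l, u => by
    simp only [PW]
    rw [PW_shift S S' c h l, ← h, Nat.add_assoc]

theorem PW_first (S S' : ℕ → Finset ℤ) (u : ℕ) (h : ∀ s, S (u + s) = S' s) (e : Ob) (l : List Ob) (hu : u ≤ e.1) :
    PW S 0 (e :: l) = PW S' 0 ((e.1 - u, e.2) :: l) := by
  simp only [PW]
  rw [PW_shift S S' u h l]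
  have e1 : u + (0 + (e.1 - u)) = 0 + e.1 := by omega
  rw [← h, e1]

theorem PW_congr (S S' : ℕ → Finset ℤ) (N : ℕ) (h : ∀ s ≤ N, S s = S' s) : ∀ (l : List Ob) (u : ℕ), u + tot l ≤ N →
    PW S u l = PW S' u l
  | [], u, _ => rfl
  | e :: l, u, hu => by
    have h1 : tot (e :: l) = e.1 + tot l := by simp [tot]
    simp only [PW]
    rw [h (u + e.1) (by omega), PW_congr S S' N h l (u + e.1) (by omega)]

/-- the times of observation -/
def times : ℕ → List Ob → List ℕ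
  | _, [] => []
  | u, e :: l => (u + e.1) :: times (u + e.1) l

theorem times_bd {δ Λ : ℝ} {t : ℕ} (hδ : 0 ≤ δ) : ∀ {l : List Ob} (u : ℕ), Adm δ Λ t l → ∀ τ ∈ times u l,
    (u : ℝ) + δ * t ≤ τ ∧ τ ≤ u + tot l
  | [], u, _, τ, hτ => by simp [times] at hτ
  | e :: l, u, h, τ, hτ => by
    have h0 : 0 ≤ δ * t := by positivity
    have h1 : tot (e :: l) = e.1 + tot l := by simp [tot]
    have h2 := (h e (by simp)).1
    simp only [times, List.mem_cons] at hτ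
    rcases hτ with rfl | hτ
    · constructor
      · push_cast; linarith
      · omega
    · obtain ⟨g1, g2⟩ := times_bd hδ (u + e.1) (fun e' he' => h e' (List.mem_cons_of_mem _ he')) τ hτ
      push_cast at g1
      constructor
      · have : (0 : ℝ) ≤ e.1 := Nat.cast_nonneg _
        linarith
      · omega

theorem PW_diff (N : ℕ) (S S' : ℤ → ℕ → Finset ℤ) {e₁ : ℝ} : ∀ {l : List Ob}, Bd l → ∀ u : ℕ,
    (∀ τ ∈ times u l, EE N (fun n => if S n τ = S' n τ then 0 else 1) ≤ e₁) →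
    EE N (fun n => |PW (S n) u l - PW (S' n) u l|) ≤ 2 * l.length * e₁
  | [], _, u, _ => by
    simp only [PW, sub_self, abs_zero, EE_const, List.length_nil, Nat.cast_zero, mul_zero, zero_mul, le_refl]
  | e :: l, hl, u, h => by
    have h1 := PW_diff N S S' (Bd_tail hl) (u + e.1) (fun τ hτ => h τ (by simp only [times, List.mem_cons]; exact Or.inr hτ))
    have h2 := h (u + e.1) (by simp [times])
    have h3 : ∀ n : ℤ, |PW (S n) u (e :: l) - PW (S' n) u (e :: l)| ≤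
        2 * (if S n (u + e.1) = S' n (u + e.1) then (0 : ℝ) else 1) + |PW (S n) (u + e.1) l - PW (S' n) (u + e.1) l| := by
      intro n
      simp only [PW]
      have w1 := Wt_abs (hl e (by simp)).1 (hl e (by simp)).2 (S n (u + e.1))
      have w2 := Wt_abs (hl e (by simp)).1 (hl e (by simp)).2 (S' n (u + e.1))
      have w3 := PW_abs (S n) (Bd_tail hl) (u + e.1)
      have w4 := PW_abs (S' n) (Bd_tail hl) (u + e.1)
      split_ifs with hc
      · rw [hc, ← mul_sub, abs_mul, mul_zero, zero_add]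
        exact mul_le_of_le_one_left (abs_nonneg _) w2
      · have w5 := mul_abs_le w1 w3
        have w6 := mul_abs_le w2 w4
        have w7 := abs_sub (Wt e.2.1 e.2.2 (S n (u + e.1)) * PW (S n) (u + e.1) l)
          (Wt e.2.1 e.2.2 (S' n (u + e.1)) * PW (S' n) (u + e.1) l)
        have w8 := abs_nonneg (PW (S n) (u + e.1) l - PW (S' n) (u + e.1) l)
        linarith
    refine (EE_mono N h3).trans ?_
    rw [EE_add, EE_mul, List.length_cons]
    push_cast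
    linarith

/-! ### periodicity -/

theorem EE_low {τ N : ℕ} (h : τ ≤ N) {F : ℤ → ℝ} (hF : Pe τ F) : EE N F = EE τ F := by
  obtain ⟨r, rfl⟩ := Nat.exists_eq_add_of_le h
  rw [EE_split]
  congr 1
  funext x
  have h1 : (fun x' : ℤ => F (2 ^ τ * x' + x)) = fun _ => F x := by
    funext x'
    rw [add_comm]
    exact hF x x'
  rw [h1, EE_const]

theorem LS_per (L s : ℕ) (x j : ℤ) : LS L s (x + 2 ^ s * j) = LS L s x := by
  unfold LS
  congr 1
  funext i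
  have e : x + 2 ^ s * j + (i : ℤ) = (x + i) + 2 ^ s * j := by ring
  rw [e, oc_per]

theorem LS_per' (L : ℕ) {s N : ℕ} (h : s ≤ N) (x j : ℤ) : LS L s (x + 2 ^ N * j) = LS L s x := by
  obtain ⟨r, rfl⟩ := Nat.exists_eq_add_of_le h
  have e : (2 : ℤ) ^ (s + r) * j = 2 ^ s * (2 ^ r * j) := by rw [pow_add]; ring
  rw [e, LS_per]

/-- the levels of the net -/
noncomputable def NS {k : ℕ} (j : Fin k → ℤ → ℕ) (s : ℕ) (x : ℤ) : Finset ℤ := univ.image (fun i => (oc s (x + j i x) : ℤ))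

theorem j_per {k u s : ℕ} {j : Fin k → ℤ → ℕ} (hj : ∀ i x y, j i (x + 2 ^ u * y) = j i x) (h : u ≤ s) (i : Fin k) (x y : ℤ) :
    j i (x + 2 ^ s * y) = j i x := by
  obtain ⟨r, rfl⟩ := Nat.exists_eq_add_of_le h
  have e : (2 : ℤ) ^ (u + r) * y = 2 ^ u * (2 ^ r * y) := by rw [pow_add]; ring
  rw [e, hj]

theorem NS_per {k u s : ℕ} {j : Fin k → ℤ → ℕ} (hj : ∀ i x y, j i (x + 2 ^ u * y) = j i x) (h : u ≤ s) (x y : ℤ) :
    NS j s (x + 2 ^ s * y) = NS j s x := by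
  unfold NS
  congr 1
  funext i
  rw [j_per hj h]
  have e : x + 2 ^ s * y + (j i x : ℤ) = (x + j i x) + 2 ^ s * y := by ring
  rw [e, oc_per]

theorem NS_split {k : ℕ} (j : Fin k → ℤ → ℕ) (u : ℕ) (hj : ∀ i x y, j i (x + 2 ^ u * y) = j i x) (s : ℕ) (x N : ℤ) :
    NS j (u + s) (2 ^ u * N + x) =
      univ.image (Lv (fun i => oc u (x + j i x)) (fun i => T^[u] (x + j i x)) s N) := by
  unfold NS
  congr 1
  funext i
  have e1 : j i (2 ^ u * N + x) = j i x := by rw [add_comm, hj]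
  have e2 : (2 ^ u * N + x : ℤ) + (j i (2 ^ u * N + x) : ℤ) = (x + j i x) + 2 ^ u * N := by rw [e1]; ring
  rw [e2, oc_add, oc_per, T_add]
  simp only [Lv, yy]
  push_cast
  rw [add_comm (T^[u] (x + (j i x : ℤ)))]

theorem net_avg {k : ℕ} (j : Fin k → ℤ → ℕ) (u : ℕ) (hj : ∀ i x y, j i (x + 2 ^ u * y) = j i x) (e : Ob) (l : List Ob)
    (hu : u ≤ e.1) :
    EE (tot (e :: l)) (fun n => PW (fun s => NS j s n) 0 (e :: l)) =
    EE u (fun x => EE (tot ((e.1 - u, e.2) :: l)) (fun N =>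
      PW (fun s => univ.image (Lv (fun i => oc u (x + j i x)) (fun i => T^[u] (x + j i x)) s N)) 0
        ((e.1 - u, e.2) :: l))) := by
  have h1 : tot (e :: l) = u + tot ((e.1 - u, e.2) :: l) := by
    simp only [tot, List.map_cons, List.sum_cons]
    omega
  rw [h1, EE_split]
  congr 1
  funext x
  congr 1
  funext N
  exact PW_first _ _ u (fun s => NS_split j u hj s x N) e l hu

/-! ### the bad set -/

/-- the levels of the net do not describe the block -/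
def ZZ {k : ℕ} (L : ℕ) (j : Fin k → ℤ → ℕ) (s : ℕ) : Set ℤ := {x : ℤ | LS L s x ≠ univ.image (fun i => (oc s (x + j i x) : ℤ)) ∨
      ∃ i i' : ℕ, i < L ∧ i' < L ∧ oc s (x + i) = oc s (x + i') ∧ T^[s] (x + i) ≠ T^[s] (x + i')}

theorem ZZ_per1 {k u s L : ℕ} {j : Fin k → ℤ → ℕ} (hj : ∀ i x y, j i (x + 2 ^ u * y) = j i x) (h : u ≤ s) (x y : ℤ)
    (hx : x ∈ ZZ L j s) : x + 2 ^ s * y ∈ ZZ L j s := by
  rcases hx with hx | ⟨i, i', hi, hi', h1, h2⟩
  · left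
    rw [LS_per]
    have := NS_per hj h x y
    unfold NS at this
    rw [this]
    exact hx
  · right
    refine ⟨i, i', hi, hi', ?_, ?_⟩
    · have e : ∀ i : ℕ, x + 2 ^ s * y + (i : ℤ) = (x + i) + 2 ^ s * y := by intro i; ring
      rw [e, e, oc_per, oc_per, h1]
    · have e : ∀ i : ℕ, x + 2 ^ s * y + (i : ℤ) = (x + i) + 2 ^ s * y := by intro i; ring
      rw [e, e, T_add, T_add, h1]
      intro hc
      exact h2 (by linarith)

theorem ZZ_per {k u s L : ℕ} {j : Fin k → ℤ → ℕ} (hj : ∀ i x y, j i (x + 2 ^ u * y) = j i x) (h : u ≤ s) :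
    Pe s (fun x => Set.indicator (ZZ L j s) (1 : ℤ → ℝ) x) := by
  intro x y
  have h1 : x + 2 ^ s * y ∈ ZZ L j s ↔ x ∈ ZZ L j s := by
    constructor
    · intro hx
      have := ZZ_per1 hj h (x + 2 ^ s * y) (-y) hx
      have e : x + 2 ^ s * y + 2 ^ s * -y = x := by ring
      rwa [e] at this
    · exact ZZ_per1 hj h x y
  by_cases hx : x ∈ ZZ L j s
  · simp only [Set.indicator_of_mem hx, Set.indicator_of_mem (h1.2 hx), Pi.one_apply]
  · simp only [Set.indicator_of_notMem hx, Set.indicator_of_notMem (fun hc => hx (h1.1 hc))]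

/-- a good net -/
def NetOK {k : ℕ} (u t L : ℕ) (j : Fin k → ℤ → ℕ) (δ ε : ℝ) : Prop :=
  (∀ i x, j i x < L) ∧ (∀ i x y, j i (x + 2 ^ u * y) = j i x) ∧ (u : ℝ) ≤ δ * t ∧ ∀ s : ℕ, δ * t ≤ s → s ≤ t →
    EE s (fun x => Set.indicator (ZZ L j s) 1 x) ≤ ε

theorem part1 {k u t L : ℕ} {j : Fin k → ℤ → ℕ} {δ Λ ε₁ : ℝ} (hδ : 0 ≤ δ) (h : NetOK u t L j δ ε₁) {l : List Ob}
    (hl : Adm δ Λ t l) (ht : tot l ≤ t) :
    |EE (tot l) (fun n => PW (fun s => LS L s n) 0 l) - EE (tot l) (fun n => PW (fun s => NS j s n) 0 l)| ≤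
      2 * l.length * ε₁ := by
  obtain ⟨-, hj, hu, hs⟩ := h
  rw [← EE_sub]
  refine (EE_abs _ _).trans ?_
  refine PW_diff (tot l) (fun n s => LS L s n) (fun n s => NS j s n) (Adm_Bd hl) 0 ?_
  intro τ hτ
  obtain ⟨g1, g2⟩ := times_bd hδ 0 hl τ hτ
  rw [Nat.cast_zero, zero_add] at g1
  rw [zero_add] at g2
  have huτ : u ≤ τ := by
    have : (u : ℝ) ≤ τ := hu.trans g1
    exact_mod_cast this
  have hP : Pe τ (fun n : ℤ => if LS L τ n = NS j τ n then (0 : ℝ) else 1) := by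
    intro x y
    simp only [LS_per, NS_per hj huτ]
  rw [EE_low g2 hP]
  refine (EE_mono τ ?_).trans (hs τ g1 (g2.trans ht))
  intro n
  split_ifs with hc
  · exact Set.indicator_nonneg (fun _ _ => zero_le_one) _
  · have : n ∈ ZZ L j τ := Or.inl hc
    rw [Set.indicator_of_mem this]
    exact le_rfl

theorem windowPW (L : ℕ) {l : List Ob} (hl : Bd l) (M : ℤ) (W : ℕ) :
    |∑ n ∈ Ico M (M + W), PW (fun s => LS L s n) 0 l - EE (tot l) (fun n => PW (fun s => LS L s n) 0 l) * W| ≤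
      2 * 2 ^ tot l := by
  have hP : Pe (tot l) (fun n : ℤ => PW (fun s => LS L s n) 0 l) := by
    intro x y
    exact PW_congr _ _ (tot l) (fun s hs => LS_per' L hs x y) l 0 (by omega)
  have h := count_bd hP (fun x => PW_abs _ hl 0) 1 0 (by norm_num) M W
  simpa using h

theorem part2 {k u t L : ℕ} {j : Fin k → ℤ → ℕ} {δ ε₁ : ℝ} (h : NetOK u t L j δ ε₁) {s : ℕ} (hs1 : δ * t ≤ s)
    (hs2 : s ≤ t) (M : ℤ) (W : ℕ) :
    ({n : ℤ | M ≤ n ∧ n < M + W ∧ ∃ i j : ℕ, i < L ∧ j < L ∧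
      ¬ (T^[s] (n + i) = T^[s] (n + j) ↔ oc s (n + i) = oc s (n + j))}.ncard : ℝ) ≤
      ε₁ * W + (2 + (k : ℝ) ^ 2) * 2 ^ s := by
  classical
  obtain ⟨hjL, hj, hu, hs⟩ := h
  have hus : u ≤ s := by
    have : (u : ℝ) ≤ s := hu.trans hs1
    exact_mod_cast this
  set A : Finset ℤ := (Ico M (M + W)).filter (fun n => n ∈ ZZ L j s) with hA
  set Q : Fin k × Fin k → Finset ℤ := fun p => (Ico M (M + W)).filter (fun n =>
    T^[s] (n + j p.1 n) = T^[s] (n + j p.2 n) ∧ oc s (n + j p.1 n) ≠ oc s (n + j p.2 n)) with hQ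
  have hsub : {n : ℤ | M ≤ n ∧ n < M + W ∧ ∃ i j : ℕ, i < L ∧ j < L ∧
      ¬ (T^[s] (n + i) = T^[s] (n + j) ↔ oc s (n + i) = oc s (n + j))} ⊆ ((A ∪ univ.biUnion Q : Finset ℤ) : Set ℤ) := by
    rintro n ⟨hn1, hn2, i, i', hi, hi', hne⟩
    have hnI : n ∈ Ico M (M + (W : ℤ)) := mem_Ico.2 ⟨hn1, hn2⟩
    by_cases hZ : n ∈ ZZ L j s
    · rw [coe_union]
      left
      rw [mem_coe, hA, mem_filter]
      exact ⟨hnI, hZ⟩
    · rw [coe_union]
      right
      have hZ' := hZ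
      simp only [ZZ, Set.mem_ofPred_eq, not_or, not_exists, not_and, not_not] at hZ'
      obtain ⟨z1, z2⟩ := hZ'
      have hnet : ∀ a : ℕ, a < L → ∃ q : Fin k, oc s (n + j q n) = oc s (n + a) ∧ T^[s] (n + j q n) = T^[s] (n + a) := by
        intro a ha
        have h1 : (oc s (n + a) : ℤ) ∈ LS L s n := mem_image.2 ⟨a, mem_range.2 ha, rfl⟩
        rw [z1, mem_image] at h1
        obtain ⟨q, -, hq⟩ := h1
        have hq' : oc s (n + j q n) = oc s (n + a) := by exact_mod_cast hq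
        exact ⟨q, hq', z2 _ _ (hjL q n) ha hq'⟩
      rcases not_iff.1 hne with ⟨e1, e2⟩
      have hoc : oc s (n + i) ≠ oc s (n + i') := by
        intro hc
        by_cases hT : T^[s] (n + i) = T^[s] (n + i')
        · exact hne ⟨fun _ => hc, fun _ => hT⟩
        · exact hT (z2 i i' hi hi' hc)
      have hT : T^[s] (n + i) = T^[s] (n + i') := by
        by_contra hT
        exact hne ⟨fun h => absurd h hT, fun h => absurd h hoc⟩
      obtain ⟨q, q1, q2⟩ := hnet i hi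
      obtain ⟨q', q3, q4⟩ := hnet i' hi'
      rw [mem_coe, mem_biUnion]
      refine ⟨(q, q'), mem_univ _, ?_⟩
      rw [hQ]
      simp only [mem_filter]
      refine ⟨hnI, ?_, ?_⟩
      · rw [q2, q4, hT]
      · rw [q1, q3]
        exact hoc
  have hcA : (A.card : ℝ) ≤ ε₁ * W + 2 * 2 ^ s := by
    have h1 := count_bd (ZZ_per (L := L) hj hus) (fun x => by
      by_cases hx : x ∈ ZZ L j s
      · rw [Set.indicator_of_mem hx]; simp
      · rw [Set.indicator_of_notMem hx]; simp) 1 0 (by norm_num) M W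
    have h2 : ∑ x ∈ Ico M (M + (W : ℤ)), Set.indicator (ZZ L j s) (1 : ℤ → ℝ) (1 * x + 0) = A.card := by
      rw [hA, card_filter]
      push_cast
      refine sum_congr rfl fun x _ => ?_
      rw [one_mul, add_zero]
      by_cases hx : x ∈ ZZ L j s
      · rw [Set.indicator_of_mem hx, if_pos hx]; rfl
      · rw [Set.indicator_of_notMem hx, if_neg hx]
    rw [h2] at h1
    have h3 := (abs_le.1 h1).2
    have h4 : EE s (fun x => Set.indicator (ZZ L j s) 1 x) * W ≤ ε₁ * W :=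
      mul_le_mul_of_nonneg_right (hs s hs1 hs2) (Nat.cast_nonneg W)
    linarith
  have hcQ : ∀ p : Fin k × Fin k, (Q p).card ≤ 2 ^ s := by
    intro p
    have h1 : (Q p).card ≤ (range (2 ^ s)).card := by
      refine card_le_card_of_injOn (fun n : ℤ => (n % 2 ^ s).toNat) ?_ ?_
      · intro n _
        have h2 : (0 : ℤ) < 2 ^ s := by positivity
        have h3 := Int.emod_nonneg n h2.ne'
        have h4 := Int.emod_lt_of_pos n h2
        rw [coe_range, Set.mem_Iio]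
        zify
        rw [Int.toNat_of_nonneg h3]
        exact h4
      · intro n hn n' hn' hnn
        rw [mem_coe, hQ] at hn hn'
        simp only [mem_filter] at hn hn'
        have h2 : (0 : ℤ) < 2 ^ s := by positivity
        have h3 := Int.emod_nonneg n h2.ne'
        have h3' := Int.emod_nonneg n' h2.ne'
        have h4 : n % 2 ^ s = n' % 2 ^ s := by
          have h5 : (n % 2 ^ s).toNat = (n' % 2 ^ s).toNat := hnn
          omega
        obtain ⟨y, hy⟩ : ∃ y : ℤ, n' = n + 2 ^ s * y := by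
          have h5 := Int.emod_add_mul_ediv n (2 ^ s)
          have h6 := Int.emod_add_mul_ediv n' (2 ^ s)
          exact ⟨n' / 2 ^ s - n / 2 ^ s, by rw [mul_sub]; linarith⟩
        have e : ∀ q : Fin k, T^[s] (n' + j q n') = T^[s] (n + j q n) + 3 ^ oc s (n + j q n) * y := by
          intro q
          have e1 : n' + (j q n' : ℤ) = (n + j q n) + 2 ^ s * y := by
            rw [hy, j_per hj hus]; ring
          rw [e1, T_add]
        have h7 := hn'.2.1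
        rw [e, e, hn.2.1] at h7
        have h8 : (3 : ℤ) ^ oc s (n + j p.1 n) * y = 3 ^ oc s (n + j p.2 n) * y := by linarith
        have hy0 : y = 0 := by
          by_contra hy0
          have h9 := mul_right_cancel₀ hy0 h8
          have h10 : (3 : ℕ) ^ oc s (n + j p.1 n) = 3 ^ oc s (n + j p.2 n) := by exact_mod_cast h9
          exact hn.2.2 (Nat.pow_right_injective le_rfl |>.comp (fun _ _ h => h) (by
            exact (Nat.pow_right_injective (by norm_num : 2 ≤ 3)) h10 ▸ rfl))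
        rw [hy, hy0]; ring
    rwa [card_range] at h1
  have hcard : ({n : ℤ | M ≤ n ∧ n < M + W ∧ ∃ i j : ℕ, i < L ∧ j < L ∧
      ¬ (T^[s] (n + i) = T^[s] (n + j) ↔ oc s (n + i) = oc s (n + j))}.ncard : ℕ) ≤ A.card + k ^ 2 * 2 ^ s := by
    refine (Set.ncard_le_ncard hsub (Finset.finite_toSet _)).trans ?_
    rw [Set.ncard_coe_finset]
    refine (card_union_le _ _).trans ?_
    refine Nat.add_le_add_left ?_ _
    refine card_biUnion_le.trans ((sum_le_sum fun p _ => hcQ p).trans ?_)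
    rw [sum_const, card_univ, Fintype.card_prod, Fintype.card_fin, smul_eq_mul]
    exact le_of_eq (by ring)
  have hcard' : ({n : ℤ | M ≤ n ∧ n < M + W ∧ ∃ i j : ℕ, i < L ∧ j < L ∧
      ¬ (T^[s] (n + i) = T^[s] (n + j) ↔ oc s (n + i) = oc s (n + j))}.ncard : ℝ) ≤ A.card + (k : ℝ) ^ 2 * 2 ^ s := by
    exact_mod_cast hcard
  linarith

/-! ### the net -/

theorem off_own {k : ℕ} {ρ : ℝ} (u t L : ℕ) (hL : 1 ≤ L) (ht : 1 ≤ t) (x : ℤ) (j : Fin k → ℕ) (hj : ∀ i, j i < L)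
    (c1 : (u : ℝ) * Real.log t ≤ ρ * t) (c2 : 3 + (u : ℝ) / 2 + Real.log L ≤ ρ * t) :
    Off ρ t (fun i => oc u (x + j i)) (fun i => T^[u] (x + j i)) := by
  have ht0 : (1 : ℝ) ≤ t := by exact_mod_cast ht
  have hLr : (1 : ℝ) ≤ L := by exact_mod_cast hL
  constructor
  · intro i i'
    have h1 : (oc u (x + j i') : ℝ) ≤ u := by exact_mod_cast oc_le u _
    have h2 : (0 : ℝ) ≤ oc u (x + j i) := Nat.cast_nonneg _
    have h3 : 0 ≤ Real.log t := Real.log_nonneg ht0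
    calc ((oc u (x + j i') : ℝ) - oc u (x + j i)) * Real.log t ≤ u * Real.log t := by
          refine mul_le_mul_of_nonneg_right ?_ h3
          linarith
      _ ≤ ρ * t := c1
  · intro i i' hii
    refine (off_block u L x (j i) (j i') (hj i) (hj i') hii).trans ?_
    refine mul_le_mul_of_nonneg_left ?_ (by positivity)
    have h1 : (3 / 2 : ℝ) ^ u ≤ Real.exp (u / 2) := by
      have h2 : (3 / 2 : ℝ) ≤ Real.exp (1 / 2) := by
        have := Real.add_one_le_exp (1 / 2 : ℝ)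
        linarith
      calc (3 / 2 : ℝ) ^ u ≤ (Real.exp (1 / 2)) ^ u := pow_le_pow_left₀ (by norm_num) h2 u
        _ = Real.exp (u / 2) := by rw [← Real.exp_nat_mul]; congr 1; ring
    have h3 : (L : ℝ) + 1 ≤ 2 * Real.exp (Real.log L) := by
      rw [Real.exp_log (by linarith)]
      linarith
    have h4 : (4 : ℝ) ≤ Real.exp 3 := by
      have := Real.add_one_le_exp (3 : ℝ)
      linarith
    calc 2 * ((3 / 2 : ℝ) ^ u * (L + 1)) ≤ 2 * (Real.exp (u / 2) * (2 * Real.exp (Real.log L))) := by gcongr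
      _ = 4 * (Real.exp (u / 2) * Real.exp (Real.log L)) := by ring
      _ ≤ Real.exp 3 * (Real.exp (u / 2) * Real.exp (Real.log L)) := by gcongr
      _ = Real.exp (3 + u / 2 + Real.log L) := by rw [Real.exp_add, Real.exp_add]; ring
      _ ≤ Real.exp (ρ * t) := Real.exp_le_exp.2 c2

theorem good_num {D ℓ s η ε₁ M₀ : ℝ} {k u : ℕ} (hk : 1 ≤ k) (hℓ : 0 ≤ ℓ) (hs : 0 < s)
    (hε : 0 < ε₁) (hℓs : ℓ ≤ M₀ * s) (hDk : D * M₀ ≤ ε₁ * k) (hD : 0 < D) (h1 : 2 * ε₁ ≤ D)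
    (h2 : ε₁ * (1 + 2 * M₀) ≤ η) (h3 : ε₁ * M₀ ≤ η / 2) (h4 : 1 ≤ η / 2 * s) (A : Fin (k + 1) → ℕ)
    (hA : ∀ i : Fin (k + 1), |(A i : ℝ) - (u / 2 - ℓ / (2 * Real.log 2) + (i : ℕ) / k * (D * ℓ))| ≤ ε₁ / k * ℓ) :
    Monotone (fun i => (A i : ℤ)) ∧
    |((A 0 : ℤ) : ℝ) - (((-⌊ℓ / (2 * Real.log 2)⌋ : ℤ) : ℝ) + u / 2)| ≤ η * s ∧
    |((A (Fin.last k) : ℤ) : ℝ) - (((⌊(D - 1 / (2 * Real.log 2)) * ℓ⌋ : ℤ) : ℝ) + u / 2)| ≤ η * s ∧
    ∀ i : Fin k, (((A i.succ : ℕ) : ℤ) : ℝ) - ((A i.castSucc : ℕ) : ℤ) ≤ η * s := by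
  have hk0 : (0 : ℝ) < k := by exact_mod_cast hk
  have hk1 : (1 : ℝ) ≤ k := by exact_mod_cast hk
  obtain ⟨y, hy⟩ : ∃ y : ℝ, y = ε₁ / k * ℓ := ⟨_, rfl⟩
  have hy0 : 0 ≤ y := by rw [hy]; positivity
  have hy1 : y ≤ ε₁ * M₀ * s := by
    rw [hy]
    calc ε₁ / k * ℓ ≤ ε₁ * ℓ := by
          refine mul_le_mul_of_nonneg_right ?_ hℓ
          exact div_le_self hε.le hk1
      _ ≤ ε₁ * (M₀ * s) := mul_le_mul_of_nonneg_left hℓs hε.le
      _ = ε₁ * M₀ * s := by ring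
  have hy2 : 2 * y ≤ D * ℓ / k := by
    rw [hy, le_div_iff₀ hk0]
    calc 2 * (ε₁ / k * ℓ) * k = 2 * ε₁ * ℓ := by field_simp
      _ ≤ D * ℓ := mul_le_mul_of_nonneg_right h1 hℓ
  have hDl : D * ℓ / k ≤ ε₁ * s := by
    rw [div_le_iff₀ hk0]
    calc D * ℓ ≤ D * (M₀ * s) := mul_le_mul_of_nonneg_left hℓs hD.le
      _ = D * M₀ * s := by ring
      _ ≤ ε₁ * k * s := mul_le_mul_of_nonneg_right hDk hs.le
      _ = ε₁ * s * k := by ring
  rw [← hy] at hA
  have hgap : ∀ i : Fin k, |((A i.succ : ℝ) - A i.castSucc) - D * ℓ / k| ≤ 2 * y := by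
    intro i
    have g1 := abs_le.1 (hA i.succ)
    have g2 := abs_le.1 (hA i.castSucc)
    rw [Fin.val_succ] at g1
    rw [Fin.val_castSucc] at g2
    push_cast at g1
    have e1 : ((i : ℕ) + 1 : ℝ) / k * (D * ℓ) = (i : ℕ) / k * (D * ℓ) + D * ℓ / k := by ring
    rw [e1] at g1
    rw [abs_le]
    constructor <;> linarith [g1.1, g1.2, g2.1, g2.2]
  have h5 : η / 2 * s + η / 2 * s = η * s := by ring
  have h6 : ε₁ * M₀ * s ≤ η / 2 * s := mul_le_mul_of_nonneg_right h3 hs.le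
  refine ⟨?_, ?_, ?_, ?_⟩
  · rw [Fin.monotone_iff_le_succ]
    intro i
    have g := (abs_le.1 (hgap i)).1
    have g' : (A i.castSucc : ℝ) ≤ A i.succ := by linarith
    exact_mod_cast g'
  · have g := abs_le.1 (hA 0)
    rw [Fin.val_zero, Nat.cast_zero, zero_div, zero_mul, add_zero] at g
    have f1 := Int.floor_le (ℓ / (2 * Real.log 2))
    have f2 := Int.lt_floor_add_one (ℓ / (2 * Real.log 2))
    push_cast
    rw [abs_le]
    constructor <;> linarith [g.1, g.2]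
  · have g := abs_le.1 (hA (Fin.last k))
    rw [Fin.val_last, div_self hk0.ne', one_mul] at g
    have f1 := Int.floor_le ((D - 1 / (2 * Real.log 2)) * ℓ)
    have f2 := Int.lt_floor_add_one ((D - 1 / (2 * Real.log 2)) * ℓ)
    have e : (D - 1 / (2 * Real.log 2)) * ℓ = D * ℓ - ℓ / (2 * Real.log 2) := by ring
    push_cast
    rw [abs_le]
    constructor <;> linarith [g.1, g.2]
  · intro i
    have g := (abs_le.1 (hgap i)).2
    push_cast
    have h7 : ε₁ * (1 + 2 * M₀) * s ≤ η * s := mul_le_mul_of_nonneg_right h2 hs.le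
    have e : ε₁ * (1 + 2 * M₀) * s = ε₁ * s + 2 * (ε₁ * M₀ * s) := by ring
    linarith

theorem sg_pq {D ℓ : ℝ} (hD : 0 ≤ D - 1 / (2 * Real.log 2)) (hℓ : 0 ≤ ℓ) :
    (-⌊ℓ / (2 * Real.log 2)⌋ : ℤ) ≤ ⌊(D - 1 / (2 * Real.log 2)) * ℓ⌋ ∧
    ((⌊(D - 1 / (2 * Real.log 2)) * ℓ⌋ : ℤ) : ℝ) - (-⌊ℓ / (2 * Real.log 2)⌋ : ℤ) ≤ D * ℓ ∧
    (0 : ℝ) ≤ ⌊ℓ / (2 * Real.log 2)⌋ ∧ (0 : ℝ) ≤ ⌊(D - 1 / (2 * Real.log 2)) * ℓ⌋ := by
  have hl2 : 0 < Real.log 2 := Real.log_pos (by norm_num)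
  have f1 := Int.floor_le (ℓ / (2 * Real.log 2))
  have f2 := Int.floor_le ((D - 1 / (2 * Real.log 2)) * ℓ)
  have g1 : 0 ≤ ⌊ℓ / (2 * Real.log 2)⌋ := Int.floor_nonneg.2 (by positivity)
  have g2 : 0 ≤ ⌊(D - 1 / (2 * Real.log 2)) * ℓ⌋ := Int.floor_nonneg.2 (mul_nonneg hD hℓ)
  have e : (D - 1 / (2 * Real.log 2)) * ℓ = D * ℓ - ℓ / (2 * Real.log 2) := by ring
  refine ⟨by omega, ?_, by exact_mod_cast g1, by exact_mod_cast g2⟩
  push_cast
  linarith

/-- the hypothesis on the walkers from a net and from the segment -/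
def Seg (M₁ δ η ε₂ : ℝ) (t : ℕ) : Prop :=
  ∀ F : Finset ℤ → ℝ, (∀ A, |F A| ≤ 1) → ∀ s u : ℕ, δ * t ≤ s → s ≤ t → (u : ℝ) ≤ η * t → ∀ p q : ℤ, p ≤ q →
    (q : ℝ) - p ≤ M₁ * √t → ∀ (k : ℕ) (a : Fin (k + 1) → ℤ), Monotone a → |(a 0 : ℝ) - (p + u / 2)| ≤ η * √t →
    |(a (Fin.last k) : ℝ) - (q + u / 2)| ≤ η * √t → (∀ i : Fin k, (a i.succ : ℝ) - a i.castSucc ≤ η * √t) →
    |cF F (s - u) (univ.image a) - cF F s (Icc p q)| ≤ ε₂

/-- the hypothesis on the families -/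
def Fam (k m : ℕ) (δ Λ ρ ε₂ : ℝ) (t : ℕ) : Prop :=
  ∀ l : List Ob, l.length ≤ m → Adm δ Λ t l → tot l ≤ t → ∀ (a : Fin k → ℕ) (b : Fin k → ℤ), Off ρ t a b →
    |EE (tot l) (fun n => PW (fun s => univ.image (Lv a b s n)) 0 l) - MW l (univ.image fun i => (a i : ℤ))| ≤ ε₂

theorem caseA {γ M₀ Λ δ η ε₁ ε₂ ρ D : ℝ} {m k t L : ℕ} (hDD : D = DD γ) (hD : 0 < D)
    (hDp : 0 ≤ D - 1 / (2 * Real.log 2)) (_hM₀ : 0 < M₀) (hδ : 0 < δ) (hε₁ : 0 < ε₁)
    (hk : 1 ≤ k) (hDk : D * M₀ ≤ ε₁ * k)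
    (c1 : 2 * ε₁ ≤ D) (c2 : ε₁ * (1 + 2 * M₀) ≤ η) (c3 : ε₁ * M₀ ≤ η / 2) (c4 : 1 ≤ η / 2 * √t)
    (hL : 1 ≤ L) (hℓM : Real.log L ≤ M₀ * √t) (ht1 : 1 ≤ t) (hseg : Seg (D * M₀) δ η ε₂ t)
    (hfam : Fam (k + 1) m (δ / 2) Λ ρ ε₂ t)
    {u : ℕ} (j : Fin (k + 1) → ℤ → ℕ) (hj1 : ∀ i x, j i x < L) (hj2 : ∀ i x y, j i (x + 2 ^ u * y) = j i x)
    (hbad : EE u (fun x => Set.indicator {x : ℤ | ∃ i : Fin (k + 1), ε₁ / k * Real.log L <
      |(oc u (x + j i x) : ℝ) - (u / 2 - Real.log L / (2 * Real.log 2) + (i : ℕ) / k * (DD γ * Real.log L))|} 1 x) ≤ ε₁)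
    (hu1 : (u : ℝ) ≤ η * t) (hu2 : (u : ℝ) ≤ δ / 2 * t) (hu3 : (u : ℝ) * Real.log t ≤ ρ * t)
    (hu4 : 3 + (u : ℝ) / 2 + Real.log L ≤ ρ * t)
    (e : Ob) (l : List Ob) (hm : (e :: l).length ≤ m) (hA : Adm δ Λ t (e :: l)) (htot : tot (e :: l) ≤ t) :
    |EE (tot (e :: l)) (fun n => PW (fun s => NS j s n) 0 (e :: l)) - MW (e :: l) (sg γ L)| ≤ 2 * ε₂ + 2 * ε₁ := by
  have ht0 : (1 : ℝ) ≤ t := by exact_mod_cast ht1
  have hs0 : 0 < √(t : ℝ) := Real.sqrt_pos.2 (by linarith)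
  have hLr : (1 : ℝ) ≤ L := by exact_mod_cast hL
  have hℓ0 : 0 ≤ Real.log L := Real.log_nonneg hLr
  have he1 : δ * t ≤ e.1 := (hA e (by simp)).1
  have hδt : 0 < δ * t := by positivity
  have hue : u ≤ e.1 := by
    have : (u : ℝ) ≤ e.1 := by linarith
    exact_mod_cast this
  have htot1 : tot (e :: l) = e.1 + tot l := by simp [tot]
  have htot2 : tot ((e.1 - u, e.2) :: l) = e.1 - u + tot l := by simp [tot]
  rw [net_avg j u hj2 e l hue]
  obtain ⟨c, hc⟩ : ∃ c : ℝ, c = MW (e :: l) (sg γ L) := ⟨_, rfl⟩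
  have hc1 : |c| ≤ 1 := by rw [hc]; exact MW_abs (Adm_Bd hA) _
  rw [← hc]
  have hBd1 : Bd ((e.1 - u, e.2) :: l) := by
    intro e' he'
    rcases List.mem_cons.1 he' with rfl | he'
    · exact ⟨(hA e (by simp)).2.1, (hA e (by simp)).2.2.1⟩
    · exact Adm_Bd hA e' (List.mem_cons_of_mem _ he')
  have hAdm1 : Adm (δ / 2) Λ t ((e.1 - u, e.2) :: l) := by
    intro e' he'
    rcases List.mem_cons.1 he' with rfl | he'
    · refine ⟨?_, (hA e (by simp)).2⟩
      rw [Nat.cast_sub hue]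
      linarith
    · have := hA e' (List.mem_cons_of_mem _ he')
      refine ⟨?_, this.2⟩
      linarith [this.1]
  set S : Set ℤ := {x : ℤ | ∃ i : Fin (k + 1), ε₁ / k * Real.log L <
      |(oc u (x + j i x) : ℝ) - (u / 2 - Real.log L / (2 * Real.log 2) + (i : ℕ) / k * (DD γ * Real.log L))|} with hS
  have hpt : ∀ x : ℤ, |EE (tot ((e.1 - u, e.2) :: l)) (fun N =>
      PW (fun s => univ.image (Lv (fun i => oc u (x + j i x)) (fun i => T^[u] (x + j i x)) s N)) 0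
        ((e.1 - u, e.2) :: l)) - c| ≤ 2 * ε₂ + 2 * Set.indicator S (1 : ℤ → ℝ) x := by
    intro x
    have hε₂ : 0 ≤ ε₂ := by
      have := hfam ((e.1 - u, e.2) :: l) hm hAdm1 (by omega) _ _ (off_own u t L hL ht1 x (fun i => j i x) (fun i => hj1 i x) hu3 hu4)
      exact (abs_nonneg _).trans this
    by_cases hx : x ∈ S
    · rw [Set.indicator_of_mem hx, Pi.one_apply]
      have h1 := EE_bd (tot ((e.1 - u, e.2) :: l)) (fun N => PW_abs (fun s => univ.image (Lv (fun i => oc u (x + j i x)) (fun i => T^[u] (x + j i x)) s N)) hBd1 0)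
      have h2 := abs_sub (EE (tot ((e.1 - u, e.2) :: l)) (fun N =>
        PW (fun s => univ.image (Lv (fun i => oc u (x + j i x)) (fun i => T^[u] (x + j i x)) s N)) 0
        ((e.1 - u, e.2) :: l))) c
      linarith
    · rw [Set.indicator_of_notMem hx, mul_zero, add_zero]
      have hgood : ∀ i : Fin (k + 1), |((oc u (x + j i x) : ℕ) : ℝ) - (u / 2 - Real.log L / (2 * Real.log 2) +
          (i : ℕ) / k * (D * Real.log L))| ≤ ε₁ / k * Real.log L := by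
        intro i
        by_contra hcon
        push Not at hcon
        rw [hDD] at hcon
        exact hx ⟨i, hcon⟩
      obtain ⟨g1, g2, g3, g4⟩ := good_num hk hℓ0 hs0 hε₁ hℓM hDk hD c1 c2 c3 c4 _ hgood
      obtain ⟨p1, p2, -, -⟩ := sg_pq hDp hℓ0
      have h1 := hfam ((e.1 - u, e.2) :: l) hm hAdm1 (by omega) _ _ (off_own u t L hL ht1 x (fun i => j i x) (fun i => hj1 i x) hu3 hu4)
      have h2 := hseg (fun A => Wt e.2.1 e.2.2 A * MW l A)
        (fun A => mul_abs_le (Wt_abs (hA e (by simp)).2.1 (hA e (by simp)).2.2.1 A) (MW_abs (Bd_tail (Adm_Bd hA)) A))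
        e.1 u he1 (by omega) hu1 _ _ p1 (p2.trans (by
          calc D * Real.log L ≤ D * (M₀ * √t) := mul_le_mul_of_nonneg_left hℓM hD.le
            _ = D * M₀ * √t := by ring)) k (fun i => ((oc u (x + j i x) : ℕ) : ℤ)) g1 g2 g3 g4
      have h3 : cF (fun A => Wt e.2.1 e.2.2 A * MW l A) e.1 (Icc (-⌊Real.log L / (2 * Real.log 2)⌋)
          ⌊(D - 1 / (2 * Real.log 2)) * Real.log L⌋) = c := by
        rw [hc, sg, ← hDD]
        simp only [MW]
      have h4 : MW ((e.1 - u, e.2) :: l) (univ.image fun i => ((oc u (x + j i x) : ℕ) : ℤ)) =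
          cF (fun A => Wt e.2.1 e.2.2 A * MW l A) (e.1 - u) (univ.image fun i => ((oc u (x + j i x) : ℕ) : ℤ)) := by
        simp only [MW]
      rw [h3, ← h4] at h2
      have h5 := abs_le.1 h1
      have h6 := abs_le.1 h2
      rw [abs_le]
      constructor <;> linarith [h5.1, h5.2, h6.1, h6.2]
  have hfin : EE u (fun x => EE (tot ((e.1 - u, e.2) :: l)) (fun N =>
      PW (fun s => univ.image (Lv (fun i => oc u (x + j i x)) (fun i => T^[u] (x + j i x)) s N)) 0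
        ((e.1 - u, e.2) :: l))) - c = EE u (fun x => EE (tot ((e.1 - u, e.2) :: l)) (fun N =>
      PW (fun s => univ.image (Lv (fun i => oc u (x + j i x)) (fun i => T^[u] (x + j i x)) s N)) 0
        ((e.1 - u, e.2) :: l)) - c) := by
    rw [EE_sub u (fun x => EE (tot ((e.1 - u, e.2) :: l)) (fun N =>
      PW (fun s => univ.image (Lv (fun i => oc u (x + j i x)) (fun i => T^[u] (x + j i x)) s N)) 0
        ((e.1 - u, e.2) :: l))) (fun _ => c), EE_const]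
  rw [hfin]
  refine (EE_abs_le u hpt).trans ?_
  rw [EE_add, EE_const, EE_mul]
  linarith

theorem caseB {γ M₀ Λ δ η ε₂ ρ D : ℝ} {m t L : ℕ} (hDD : D = DD γ) (hD : 0 < D)
    (hDp : 0 ≤ D - 1 / (2 * Real.log 2)) (hη : 0 < η) (hρ : 0 ≤ ρ)
    (hL : 1 ≤ L) (hκ : (1 + D) * Real.log L ≤ η * √t) (hℓM : Real.log L ≤ M₀ * √t)
    (hseg : Seg (D * M₀) δ η ε₂ t) (hfam : Fam 1 m δ Λ ρ ε₂ t)
    (e : Ob) (l : List Ob) (hm : (e :: l).length ≤ m) (hA : Adm δ Λ t (e :: l)) (htot : tot (e :: l) ≤ t) :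
    |EE (tot (e :: l)) (fun n => PW (fun s => NS (fun (_ : Fin 1) (_ : ℤ) => 0) s n) 0 (e :: l)) -
      MW (e :: l) (sg γ L)| ≤ 2 * ε₂ := by
  have hLr : (1 : ℝ) ≤ L := by exact_mod_cast hL
  have hℓ0 : 0 ≤ Real.log L := Real.log_nonneg hLr
  have he1 : δ * t ≤ e.1 := (hA e (by simp)).1
  have htot1 : tot (e :: l) = e.1 + tot l := by simp [tot]
  obtain ⟨p1, p2, p3, p4⟩ := sg_pq hDp hℓ0
  have hl2 : (1 : ℝ) ≤ 2 * Real.log 2 := by have := Real.log_two_gt_d9; linarith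
  have f1 : ((⌊Real.log L / (2 * Real.log 2)⌋ : ℤ) : ℝ) ≤ Real.log L :=
    (Int.floor_le _).trans (div_le_self hℓ0 hl2)
  have f2 : ((⌊(D - 1 / (2 * Real.log 2)) * Real.log L⌋ : ℤ) : ℝ) ≤ D * Real.log L := by
    refine (Int.floor_le _).trans (mul_le_mul_of_nonneg_right ?_ hℓ0)
    have : 0 < 1 / (2 * Real.log 2) := by positivity
    linarith
  have hDℓ : 0 ≤ D * Real.log L := by positivity
  have h1 := hfam (e :: l) hm hA htot (fun _ => 0) (fun _ => 0) (by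
    have ht0 : (0 : ℝ) ≤ t := Nat.cast_nonneg t
    constructor
    · intro i i'
      simp only [sub_self, zero_mul]
      positivity
    · intro i i' _
      simp only [Int.cast_zero, mul_zero, sub_self, abs_zero]
      positivity)
  have h2 := hseg (fun A => Wt e.2.1 e.2.2 A * MW l A)
    (fun A => mul_abs_le (Wt_abs (hA e (by simp)).2.1 (hA e (by simp)).2.2.1 A) (MW_abs (Bd_tail (Adm_Bd hA)) A))
    e.1 0 he1 (by omega) (by rw [Nat.cast_zero]; positivity) _ _ p1 (p2.trans (by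
      calc D * Real.log L ≤ D * (M₀ * √t) := mul_le_mul_of_nonneg_left hℓM hD.le
        _ = D * M₀ * √t := by ring)) 0 (fun _ => ((0 : ℕ) : ℤ)) (fun _ _ _ => le_rfl) (by
      push_cast
      rw [abs_le]
      constructor <;> linarith) (by
      push_cast
      rw [abs_le]
      constructor <;> linarith) (fun i => i.elim0)
  have h3 : cF (fun A => Wt e.2.1 e.2.2 A * MW l A) e.1 (Icc (-⌊Real.log L / (2 * Real.log 2)⌋)
      ⌊(D - 1 / (2 * Real.log 2)) * Real.log L⌋) = MW (e :: l) (sg γ L) := by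
    rw [sg, ← hDD]
    simp only [MW]
  have h4 : MW (e :: l) (univ.image fun _ : Fin 1 => ((0 : ℕ) : ℤ)) =
      cF (fun A => Wt e.2.1 e.2.2 A * MW l A) e.1 (univ.image fun _ : Fin (0 + 1) => ((0 : ℕ) : ℤ)) := by
    simp only [MW]
  rw [h3, Nat.sub_zero, ← h4] at h2
  have h5 : ∀ n : ℤ, PW (fun s => NS (fun (_ : Fin 1) (_ : ℤ) => 0) s n) 0 (e :: l) =
      PW (fun s => univ.image (Lv (fun _ : Fin 1 => 0) (fun _ => 0) s n)) 0 (e :: l) := by
    intro n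
    refine PW_congr _ _ (tot (e :: l)) (fun s _ => ?_) (e :: l) 0 (by omega)
    unfold NS
    congr 1
    funext i
    simp [Lv, yy]
  simp only [h5]
  have h6 := abs_le.1 h1
  have h7 := abs_le.1 h2
  rw [abs_le]
  constructor <;> linarith [h6.1, h6.2, h7.1, h7.2]

theorem netB {γ C δ κ e : ℝ} {t L : ℕ} (hγ : 0 < γ) (hδ : 0 < δ) (hC : 0 < C) (_hκ : 0 < κ) (he : 0 < e)
    (hmean : ∀ L t : ℕ, 2 ≤ L → (γ + 1) * Real.log L ≤ t →
      EE t (fun x => ((VV L t x).card : ℝ) - 1) ≤ C * (Real.log L / √t))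
    (hL : 1 ≤ L) (hℓ : Real.log L ≤ κ * √t) (hδκ : (γ + 1) * κ ≤ δ) (ht : 1 ≤ t) (hCκ : C * κ ≤ e * √δ) :
    NetOK 0 t L (fun (_ : Fin 1) (_ : ℤ) => 0) δ e := by
  have ht0 : (1 : ℝ) ≤ t := by exact_mod_cast ht
  have hs0 : 0 < √(t : ℝ) := Real.sqrt_pos.2 (by linarith)
  have hst : √(t : ℝ) ≤ t := by
    rw [Real.sqrt_le_left (by linarith)]
    nlinarith
  refine ⟨fun _ _ => (show 0 < L by omega), fun _ _ _ => rfl, by rw [Nat.cast_zero]; positivity, fun s hs1 hs2 => ?_⟩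
  have hcard : ∀ x : ℤ, 1 ≤ (VV L s x).card := by
    intro x
    rw [Nat.one_le_iff_ne_zero, Ne, card_eq_zero]
    unfold VV
    rw [image_eq_empty, range_eq_empty_iff]
    omega
  have hZ : ∀ x : ℤ, x ∈ ZZ L (fun (_ : Fin 1) (_ : ℤ) => 0) s → 2 ≤ (VV L s x).card := by
    intro x hx
    by_contra hcon
    have hc1 : (VV L s x).card ≤ 1 := by omega
    rw [card_le_one] at hc1
    have hall : ∀ i i' : ℕ, i < L → i' < L → nx s x (0, (i : ℤ)) = nx s x (0, (i' : ℤ)) := by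
      intro i i' hi hi'
      exact hc1 _ (mem_image.2 ⟨i, mem_range.2 hi, rfl⟩) _ (mem_image.2 ⟨i', mem_range.2 hi', rfl⟩)
    have hall' : ∀ i i' : ℕ, i < L → i' < L → oc s (x + i) = oc s (x + i') ∧ T^[s] (x + i) = T^[s] (x + i') := by
      intro i i' hi hi'
      have := hall i i' hi hi'
      simp only [nx, pow_zero, one_mul, Nat.zero_add, Prod.mk.injEq] at this
      exact this
    rcases hx with hx | ⟨i, i', hi, hi', h1, h2⟩
    · apply hx
      unfold LS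
      ext y
      simp only [mem_image, mem_range, mem_univ, true_and]
      constructor
      · rintro ⟨i, hi, rfl⟩
        refine ⟨0, ?_⟩
        have := (hall' 0 i (by omega) hi).1
        exact_mod_cast this
      · rintro ⟨i, rfl⟩
        exact ⟨0, by omega, rfl⟩
    · exact h2 (hall' i i' hi hi').2
  rcases Nat.lt_or_ge L 2 with hL2 | hL2
  · have hL1 : L = 1 := by omega
    have hz : ∀ x : ℤ, Set.indicator (ZZ L (fun (_ : Fin 1) (_ : ℤ) => 0) s) (1 : ℤ → ℝ) x = 0 := by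
      intro x
      refine Set.indicator_of_notMem ?_ _
      intro hx
      have h1 := hZ x hx
      have h2 : (VV L s x).card ≤ 1 := by
        unfold VV
        refine card_image_le.trans ?_
        rw [card_range, hL1]
      omega
    simp only [hz, EE_const]
    exact he.le
  · have h1 : ∀ x : ℤ, Set.indicator (ZZ L (fun (_ : Fin 1) (_ : ℤ) => 0) s) (1 : ℤ → ℝ) x ≤ ((VV L s x).card : ℝ) - 1 := by
      intro x
      by_cases hx : x ∈ ZZ L (fun (_ : Fin 1) (_ : ℤ) => 0) s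
      · rw [Set.indicator_of_mem hx, Pi.one_apply]
        have : (2 : ℝ) ≤ (VV L s x).card := by exact_mod_cast hZ x hx
        linarith
      · rw [Set.indicator_of_notMem hx]
        have : (1 : ℝ) ≤ (VV L s x).card := by exact_mod_cast hcard x
        linarith
    have hLr : (1 : ℝ) ≤ L := by exact_mod_cast hL
    have hℓ0 : 0 ≤ Real.log L := Real.log_nonneg hLr
    have h2 : (γ + 1) * Real.log L ≤ s := by
      calc (γ + 1) * Real.log L ≤ (γ + 1) * (κ * √t) := mul_le_mul_of_nonneg_left hℓ (by linarith)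
        _ = (γ + 1) * κ * √t := by ring
        _ ≤ δ * √t := mul_le_mul_of_nonneg_right hδκ hs0.le
        _ ≤ δ * t := mul_le_mul_of_nonneg_left hst hδ.le
        _ ≤ s := hs1
    refine (EE_mono s h1).trans ((hmean L s hL2 h2).trans ?_)
    have hsd : √δ * √t ≤ √(s : ℝ) := by
      rw [← Real.sqrt_mul hδ.le]
      exact Real.sqrt_le_sqrt hs1
    have hsd0 : 0 < √δ * √t := mul_pos (Real.sqrt_pos.2 hδ) hs0
    have hs00 : 0 < √(s : ℝ) := lt_of_lt_of_le hsd0 hsd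
    rw [← mul_div_assoc, div_le_iff₀ hs00]
    calc C * Real.log L ≤ C * (κ * √t) := mul_le_mul_of_nonneg_left hℓ hC.le
      _ = C * κ * √t := by ring
      _ ≤ e * √δ * √t := mul_le_mul_of_nonneg_right hCκ hs0.le
      _ = e * (√δ * √t) := by ring
      _ ≤ e * √s := mul_le_mul_of_nonneg_left hsd he.le

/-- job Web -/
theorem web (_h0 : S_CwMean) (h1 : S_Mean) (h2 : S_FamM) (h3 : S_SegW) (h4 : S_TightW) : S_Web := by
  intro γ hγ m M₀ Λ δ ε hM₀ hΛ hδ hε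
  obtain ⟨hr1, hr2⟩ := rr_bounds hγ
  have hγ0 : 0 < γ := by linarith [hγ.1]
  have hl2 : (0 : ℝ) < Real.log 2 := Real.log_pos (by norm_num)
  have hγr : 0 < γ * (rr γ - 1 / 2) := mul_pos hγ0 (by linarith)
  obtain ⟨D, hDD⟩ : ∃ D : ℝ, D = DD γ := ⟨_, rfl⟩
  have hDp : 0 < D - 1 / (2 * Real.log 2) := by rw [hDD]; unfold DD; linarith
  have hD : 0 < D := by
    have : 0 < 1 / (2 * Real.log 2) := by positivity
    linarith
  obtain ⟨η, hη, t₁, hseg⟩ := h3 (D * M₀) δ (ε / 16) (by positivity) hδ (by positivity)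
  obtain ⟨C, hC, hmean⟩ := h1 γ hγ 1 one_pos
  obtain ⟨μ, hμ⟩ : ∃ μ : ℝ, μ = ε / (16 * (m + 1)) := ⟨_, rfl⟩
  have hμ0 : 0 < μ := by rw [hμ]; positivity
  have hm0 : (0 : ℝ) ≤ m := Nat.cast_nonneg m
  have hμm : μ * (16 * (m + 1)) = ε := by rw [hμ]; field_simp
  have hμm0 : 0 ≤ μ * m := by positivity
  have hsδ : 0 < √δ := Real.sqrt_pos.2 hδ
  obtain ⟨κ, hκ⟩ : ∃ κ : ℝ, κ = min (η / (1 + D)) (min (δ / (γ + 1)) (μ * √δ / C)) := ⟨_, rfl⟩
  have hκ0 : 0 < κ := by rw [hκ]; positivity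
  have hκ1 : κ ≤ η / (1 + D) := by rw [hκ]; exact min_le_left _ _
  have hκ2 : κ ≤ δ / (γ + 1) := by rw [hκ]; exact (min_le_right _ _).trans (min_le_left _ _)
  have hκ3 : κ ≤ μ * √δ / C := by rw [hκ]; exact (min_le_right _ _).trans (min_le_right _ _)
  rw [le_div_iff₀ (by positivity)] at hκ1 hκ2 hκ3
  obtain ⟨ε₁, hε₁⟩ : ∃ ε₁ : ℝ, ε₁ = min μ (min (D / 2) (min (η / (1 + 2 * M₀)) (η / (2 * M₀)))) := ⟨_, rfl⟩
  have hε₁0 : 0 < ε₁ := by rw [hε₁]; positivity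
  have hε₁1 : ε₁ ≤ μ := by rw [hε₁]; exact min_le_left _ _
  have hε₁2 : ε₁ ≤ D / 2 := by rw [hε₁]; exact (min_le_right _ _).trans (min_le_left _ _)
  have hε₁3 : ε₁ ≤ η / (1 + 2 * M₀) := by
    rw [hε₁]
    exact (min_le_right _ _).trans ((min_le_right _ _).trans (min_le_left _ _))
  have hε₁4 : ε₁ ≤ η / (2 * M₀) := by
    rw [hε₁]
    exact (min_le_right _ _).trans ((min_le_right _ _).trans (min_le_right _ _))
  rw [le_div_iff₀ (by positivity)] at hε₁3 hε₁4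
  obtain ⟨k, t₂, hk, hDk, htight⟩ := h4 γ hγ κ M₀ δ ε₁ hκ0 hM₀ hδ hε₁0
  rw [← hDD] at hDk
  obtain ⟨ρ, hρ, t₃, hfam⟩ := h2 (k + 1) m (δ / 2) Λ (ε / 16) (by positivity) hΛ (by positivity)
  obtain ⟨ρ', hρ', t₄, hfam'⟩ := h2 1 m δ Λ (ε / 16) hδ hΛ (by positivity)
  obtain ⟨c, hc⟩ : ∃ c : ℝ, c = min ρ (min η (δ / 2)) := ⟨_, rfl⟩
  have hc0 : 0 < c := by rw [hc]; positivity
  have hcρ : c ≤ ρ := by rw [hc]; exact min_le_left _ _
  have hcη : c ≤ η := by rw [hc]; exact (min_le_right _ _).trans (min_le_left _ _)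
  have hcδ : c ≤ δ / 2 := by rw [hc]; exact (min_le_right _ _).trans (min_le_right _ _)
  obtain ⟨t₅, ht₅⟩ := ev (100 * (M₀ + 1)) c hc0
  obtain ⟨t₆, ht₆⟩ : ∃ t₆ : ℕ, t₆ = ⌈(2 / η) ^ 2⌉₊ := ⟨_, rfl⟩
  obtain ⟨K, hK⟩ : ∃ K : ℕ, K = ⌈4 * (2 + ((k : ℝ) + 1) ^ 2) / ε⌉₊ := ⟨_, rfl⟩
  refine ⟨t₁ ⊔ t₂ ⊔ t₃ ⊔ t₄ ⊔ t₅ ⊔ t₆ ⊔ 1, K, fun t ht L hL hℓM M W hW => ?_⟩
  simp only [sup_le_iff] at ht
  obtain ⟨⟨⟨⟨⟨⟨g1, g2⟩, g3⟩, g4⟩, g5⟩, g6⟩, g7⟩ := ht
  have ht0 : (1 : ℝ) ≤ t := by exact_mod_cast g7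
  have hs0 : 0 < √(t : ℝ) := Real.sqrt_pos.2 (by linarith)
  have hs1 : 1 ≤ √(t : ℝ) := by rw [Real.one_le_sqrt]; exact ht0
  have hLr : (1 : ℝ) ≤ L := by exact_mod_cast hL
  have hℓ0 : 0 ≤ Real.log L := Real.log_nonneg hLr
  have hlt : 0 ≤ Real.log t := Real.log_nonneg ht0
  have hW0 : (0 : ℝ) ≤ W := Nat.cast_nonneg W
  have h2t : (0 : ℝ) < 2 ^ t := by positivity
  have hWK : 4 * (2 + ((k : ℝ) + 1) ^ 2) * 2 ^ t ≤ ε * W := by
    have hK1 : 4 * (2 + ((k : ℝ) + 1) ^ 2) ≤ K * ε := by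
      rw [← div_le_iff₀ hε, hK]
      exact Nat.le_ceil _
    have hW' : (K : ℝ) * 2 ^ t ≤ W := by exact_mod_cast hW
    calc 4 * (2 + ((k : ℝ) + 1) ^ 2) * 2 ^ t ≤ K * ε * 2 ^ t := mul_le_mul_of_nonneg_right hK1 h2t.le
      _ = ε * (K * 2 ^ t) := by ring
      _ ≤ ε * W := mul_le_mul_of_nonneg_left hW' hε.le
  have hμε : μ ≤ ε / 16 := by linarith
  -- the net
  have hnet : ∃ (k' u : ℕ) (j : Fin k' → ℤ → ℕ), (k' : ℝ) ≤ k + 1 ∧ NetOK u t L j δ μ ∧ ∀ (e : Ob) (l : List Ob),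
      (e :: l).length ≤ m → Adm δ Λ t (e :: l) → tot (e :: l) ≤ t →
      |EE (tot (e :: l)) (fun n => PW (fun s => NS j s n) 0 (e :: l)) - MW (e :: l) (sg γ L)| ≤ ε / 4 := by
    rcases le_total (κ * √t) (Real.log L) with hκL | hκL
    · obtain ⟨u, hu, j, hj1, hj2, hj3, hj4⟩ := htight t g2 L hL hκL hℓM
      have hev := ht₅ t g5
      have hu0 : (0 : ℝ) ≤ u := Nat.cast_nonneg u
      have hu5 : (u : ℝ) ≤ 42 * (M₀ * √t) := hu.trans (mul_le_mul_of_nonneg_left hℓM (by norm_num))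
      have q0 : 0 ≤ √(t : ℝ) * Real.log t := mul_nonneg hs0.le hlt
      have q1 : 0 ≤ M₀ * √(t : ℝ) := by positivity
      have q2 : 0 ≤ M₀ * (√(t : ℝ) * Real.log t) := by positivity
      have hev' : 100 * M₀ + 100 * (M₀ * √t) + 100 * (M₀ * (√t * Real.log t)) + 100 + 100 * √t +
          100 * (√t * Real.log t) ≤ c * t := by
        have e : 100 * (M₀ + 1) * (1 + √t + √t * Real.log t) = 100 * M₀ + 100 * (M₀ * √t) +
            100 * (M₀ * (√t * Real.log t)) + 100 + 100 * √t + 100 * (√t * Real.log t) := by ring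
        linarith
      have hut : (u : ℝ) ≤ c * t := by linarith
      have hcη' : c * t ≤ η * t := mul_le_mul_of_nonneg_right hcη (by linarith)
      have hcδ' : c * t ≤ δ / 2 * t := mul_le_mul_of_nonneg_right hcδ (by linarith)
      have hcρ' : c * t ≤ ρ * t := mul_le_mul_of_nonneg_right hcρ (by linarith)
      have hδt : 0 ≤ δ / 2 * t := by positivity
      have hu3 : (u : ℝ) * Real.log t ≤ ρ * t := by
        calc (u : ℝ) * Real.log t ≤ 42 * (M₀ * √t) * Real.log t := mul_le_mul_of_nonneg_right hu5 hlt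
          _ = 42 * (M₀ * (√t * Real.log t)) := by ring
          _ ≤ ρ * t := by linarith
      have hu4 : 3 + (u : ℝ) / 2 + Real.log L ≤ ρ * t := by linarith
      have c4 : 1 ≤ η / 2 * √t := by
        have e1 : (2 / η) ^ 2 ≤ (√(t : ℝ)) ^ 2 := by
          rw [Real.sq_sqrt (by linarith)]
          refine (Nat.le_ceil _).trans ?_
          rw [← ht₆]
          exact_mod_cast g6
        have e2 : 2 / η ≤ √(t : ℝ) := le_of_sq_le_sq e1 hs0.le
        rw [div_le_iff₀ hη] at e2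
        linarith
      refine ⟨k + 1, u, j, by push_cast; exact le_rfl, ⟨hj1, hj2, by linarith, fun s hs1 hs2 => ?_⟩, ?_⟩
      · exact (hj4 s hs1 hs2).trans hε₁1
      · intro e l hm hA htot
        have h := caseA (γ := γ) (M₀ := M₀) (Λ := Λ) (δ := δ) (η := η) (ε₁ := ε₁) (ε₂ := ε / 16) (ρ := ρ) (D := D) (m := m)
          (k := k) (t := t) (L := L) hDD hD hDp.le hM₀ hδ hε₁0 hk hDk (by linarith) hε₁3 (by linarith) c4 hL hℓM g7
          (fun F hF s u => hseg t g1 F hF s u) (fun l => hfam t g3 l) j hj1 hj2 hj3 (by linarith) (by linarith) hu3 hu4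
          e l hm hA htot
        linarith
    · refine ⟨1, 0, fun _ _ => 0, by push_cast; linarith [(Nat.cast_nonneg k : (0 : ℝ) ≤ k)],
        netB hγ0 hδ hC hκ0 hμ0 hmean hL hκL (by linarith) g7 (by linarith), ?_⟩
      intro e l hm hA htot
      have h := caseB (γ := γ) (M₀ := M₀) (Λ := Λ) (δ := δ) (η := η) (ε₂ := ε / 16) (ρ := ρ') (D := D) (m := m)
          (t := t) (L := L) hDD hD hDp.le hη hρ'.le hL (by
            calc (1 + D) * Real.log L ≤ (1 + D) * (κ * √t) := mul_le_mul_of_nonneg_left hκL (by linarith)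
              _ = κ * (1 + D) * √t := by ring
              _ ≤ η * √t := mul_le_mul_of_nonneg_right hκ1 hs0.le) hℓM
          (fun F hF s u => hseg t g1 F hF s u) (fun l => hfam' t g4 l) e l hm hA htot
      linarith
  obtain ⟨k', u, j, hk', hOK, hmain⟩ := hnet
  constructor
  · intro l hm hA htot
    cases l with
    | nil =>
      simp only [PW, MW, sum_const, Int.card_Ico, nsmul_eq_mul, mul_one, one_mul]
      have e1 : (M + (W : ℤ) - M).toNat = W := by omega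
      rw [e1, sub_self, abs_zero]
      positivity
    | cons e l =>
      have a1 := windowPW L (Adm_Bd hA) M W
      have a2 := mul_le_mul_of_nonneg_right (part1 hδ.le hOK hA htot) hW0
      have a3 := mul_le_mul_of_nonneg_right (hmain e l hm hA htot) hW0
      have e1 : ∑ n ∈ Ico M (M + (W : ℤ)), PW (fun s => LS L s n) 0 (e :: l) - MW (e :: l) (sg γ L) * W =
          (∑ n ∈ Ico M (M + (W : ℤ)), PW (fun s => LS L s n) 0 (e :: l) -
            EE (tot (e :: l)) (fun n => PW (fun s => LS L s n) 0 (e :: l)) * W) +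
          (EE (tot (e :: l)) (fun n => PW (fun s => LS L s n) 0 (e :: l)) -
            EE (tot (e :: l)) (fun n => PW (fun s => NS j s n) 0 (e :: l))) * W +
          (EE (tot (e :: l)) (fun n => PW (fun s => NS j s n) 0 (e :: l)) - MW (e :: l) (sg γ L)) * W := by ring
      rw [e1]
      refine (abs_add_le _ _).trans ?_
      refine (add_le_add_left (abs_add_le _ _) _).trans ?_
      rw [abs_mul, abs_mul, abs_of_nonneg hW0]
      have b1 : (2 : ℝ) ^ tot (e :: l) ≤ 2 ^ t := pow_le_pow_right₀ (by norm_num) htot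
      have b2 : (((e :: l).length : ℕ) : ℝ) ≤ m := by exact_mod_cast hm
      have b3 : 2 * (((e :: l).length : ℕ) : ℝ) * μ * W ≤ ε / 8 * W := by
        refine mul_le_mul_of_nonneg_right ?_ hW0
        have : (((e :: l).length : ℕ) : ℝ) * μ ≤ m * μ := mul_le_mul_of_nonneg_right b2 hμ0.le
        linarith
      have b4 : 0 ≤ ((k : ℝ) + 1) ^ 2 * 2 ^ t := by positivity
      have b5 : 0 ≤ ε * W := by positivity
      have b6 : 4 * (2 + ((k : ℝ) + 1) ^ 2) * 2 ^ t = 8 * 2 ^ t + 4 * (((k : ℝ) + 1) ^ 2 * 2 ^ t) := by ring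
      linarith
  · intro s hs1' hs2
    have a := part2 hOK hs1' hs2 M W
    refine a.trans ?_
    have b1 : (2 : ℝ) ^ s ≤ 2 ^ t := pow_le_pow_right₀ (by norm_num) hs2
    have b2 : (k' : ℝ) ^ 2 ≤ ((k : ℝ) + 1) ^ 2 := pow_le_pow_left₀ (Nat.cast_nonneg k') hk' 2
    have b3 : (2 + (k' : ℝ) ^ 2) * 2 ^ s ≤ (2 + ((k : ℝ) + 1) ^ 2) * 2 ^ t :=
      mul_le_mul (by linarith) b1 (by positivity) (by positivity)
    have b4 : μ * W ≤ ε / 16 * W := mul_le_mul_of_nonneg_right hμε hW0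
    have b5 : 0 ≤ ε * W := by positivity
    linarith

end Pool.Agent.Q234.BT
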